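import Pool.Agent.H18.QGR.Stmts

/-! Board qgr, row NEU (helper18). -/

set_option autoImplicit false

noncomputable section

namespace Pool.QGR

namespace NEUh

variable {B : Type} [NormedRing B]

def cc (T : ℕ → B) (k : ℕ) : B := ((List.range k).reverse.map T).prod

theorem cc_zero (T : ℕ → B) : cc T 0 = 1 := by simp [cc]

theorem cc_succ (T : ℕ → B) (k : ℕ) : cc T (k + 1) = T k * cc T k := by
  simp [cc, List.range_succ]

theorem cc_succ' (T : ℕ → B) (k : ℕ) : cc T (k + 1) = cc (fun i => T (i + 1)) k * T 0 := by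
  induction k with
  | zero => simp [cc_succ, cc_zero]
  | succ k ih => rw [cc_succ, ih, cc_succ, mul_assoc]

theorem cc_comm (T : ℕ → B) (hc : ∀ i j, i + 2 ≤ j → T i * T j = T j * T i) (j k : ℕ)
    (h : j + 1 ≤ k) : cc T j * T k = T k * cc T j := by
  induction j with
  | zero => simp [cc_zero]
  | succ j ih =>
    rw [cc_succ, mul_assoc, ih (by omega), ← mul_assoc, hc j k (by omega), mul_assoc]

theorem cc_shift (T : ℕ → B) (hb : ∀ i, T i * T (i + 1) * T i = T (i + 1) * T i * T (i + 1))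
    (hc : ∀ i j, i + 2 ≤ j → T i * T j = T j * T i) (j r : ℕ) (h : j + 2 ≤ r) :
    cc T r * T (j + 1) = T j * cc T r := by
  induction r with
  | zero => omega
  | succ r ih =>
    rcases Nat.lt_or_ge r (j + 2) with h1 | h1
    · have h2 : r = j + 1 := by omega
      subst h2
      rw [cc_succ, cc_succ]
      calc T (j + 1) * (T j * cc T j) * T (j + 1)
          = T (j + 1) * T j * (cc T j * T (j + 1)) := by simp only [mul_assoc]
        _ = T (j + 1) * T j * T (j + 1) * cc T j := by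
          rw [cc_comm T hc j (j + 1) le_rfl]; simp only [mul_assoc]
        _ = T j * T (j + 1) * T j * cc T j := by rw [hb]
        _ = T j * (T (j + 1) * (T j * cc T j)) := by simp only [mul_assoc]
    · rw [cc_succ]
      calc T r * cc T r * T (j + 1) = T r * (cc T r * T (j + 1)) := by rw [mul_assoc]
        _ = T r * (T j * cc T r) := by rw [ih h1]
        _ = (T r * T j) * cc T r := by rw [mul_assoc]
        _ = T j * (T r * cc T r) := by rw [← hc j r h1, mul_assoc]

theorem cc_mul (T : ℕ → B) (hb : ∀ i, T i * T (i + 1) * T i = T (i + 1) * T i * T (i + 1))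
    (hc : ∀ i j, i + 2 ≤ j → T i * T j = T j * T i) (r k : ℕ) (h : k + 1 ≤ r) :
    cc T r * cc (fun i => T (i + 1)) k = cc T k * cc T r := by
  induction k with
  | zero => simp [cc_zero]
  | succ k ih =>
    rw [cc_succ, cc_succ, ← mul_assoc, cc_shift T hb hc k r h, mul_assoc, ih (by omega), mul_assoc]

theorem S_id (T : ℕ → B) (hb : ∀ i, T i * T (i + 1) * T i = T (i + 1) * T i * T (i + 1))
    (hc : ∀ i j, i + 2 ≤ j → T i * T j = T j * T i) (r : ℕ) :
    (1 - cc T r) * ∑ k ∈ Finset.range (r + 1), cc T k =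
      (∑ k ∈ Finset.range r, cc T k) * (1 - cc T r * T 0) := by
  have h1 : ∑ k ∈ Finset.range (r + 1), cc T k =
      (∑ k ∈ Finset.range r, cc (fun i => T (i + 1)) k) * T 0 + 1 := by
    rw [Finset.sum_range_succ', cc_zero, Finset.sum_mul]
    congr 1
    exact Finset.sum_congr rfl fun k _ => cc_succ' T k
  have h2 : cc T r * ∑ k ∈ Finset.range r, cc (fun i => T (i + 1)) k =
      (∑ k ∈ Finset.range r, cc T k) * cc T r := by
    rw [Finset.mul_sum, Finset.sum_mul]
    exact Finset.sum_congr rfl fun k hk => cc_mul T hb hc r k (by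
      have := Finset.mem_range.mp hk
      omega)
  have h3 : cc T r * ∑ k ∈ Finset.range (r + 1), cc T k =
      (∑ k ∈ Finset.range r, cc T k) * (cc T r * T 0) + cc T r := by
    rw [h1, mul_add, mul_one, ← mul_assoc, h2, mul_assoc]
  rw [sub_mul, one_mul, h3, Finset.sum_range_succ, mul_sub, mul_one]
  abel

theorem cc_norm [NormOneClass B] (T : ℕ → B) (Q : ℝ) (hQ : 0 ≤ Q) (hT : ∀ i, ‖T i‖ ≤ Q) (k : ℕ) :
    ‖cc T k‖ ≤ Q ^ k := by
  induction k with
  | zero => simp [cc_zero]
  | succ k ih =>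
    rw [cc_succ, pow_succ']
    exact (norm_mul_le _ _).trans (mul_le_mul (hT k) ih (norm_nonneg _) hQ)

end NEUh

open NEUh in
theorem neu_thm : NEUStmt := by
  intro B _ _ _ T Q hQ hQ1 hT hb hc
  have hq : 0 < 1 - Q := by linarith only [hQ1]
  have key : ∀ r : ℕ, ∃ U : B, U * ∑ k ∈ Finset.range (r + 1), cc T k = 1 ∧
      (∑ k ∈ Finset.range (r + 1), cc T k) * U = 1 ∧
      ‖U‖ ≤ Real.exp (∑ k ∈ Finset.range r, (Q ^ (k + 1) + Q ^ (k + 2) / (1 - Q))) := by
    intro r
    induction r with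
    | zero => exact ⟨1, by simp [cc_zero], by simp [cc_zero], by simp⟩
    | succ r ih =>
      obtain ⟨U, hU1, hU2, hU3⟩ := ih
      have hid := S_id T hb hc (r + 1)
      have hcn : ‖cc T (r + 1)‖ ≤ Q ^ (r + 1) := cc_norm T Q hQ hT _
      have hcn2 : ‖cc T (r + 1) * T 0‖ ≤ Q ^ (r + 2) := by
        refine (norm_mul_le _ _).trans ?_
        rw [pow_succ Q (r + 1)]
        exact mul_le_mul hcn (hT 0) (norm_nonneg _) (by positivity)
      have hp1 : Q ^ (r + 1) < 1 := pow_lt_one₀ hQ hQ1 (by omega)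
      have hp2 : Q ^ (r + 2) < 1 := pow_lt_one₀ hQ hQ1 (by omega)
      have hp3 : Q ^ (r + 2) ≤ Q := pow_le_of_le_one hQ hQ1.le (by omega)
      have hc1 : ‖cc T (r + 1)‖ < 1 := lt_of_le_of_lt hcn hp1
      have hc2 : ‖cc T (r + 1) * T 0‖ < 1 := lt_of_le_of_lt hcn2 hp2
      set c := cc T (r + 1) with hcdef
      set V : B := ∑' n : ℕ, (c * T 0) ^ n with hV
      set W : B := ∑' n : ℕ, c ^ n with hW
      have hV1 : V * (1 - c * T 0) = 1 := geom_series_mul_neg _ hc2
      have hV2 : (1 - c * T 0) * V = 1 := mul_neg_geom_series _ hc2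
      have hW1 : W * (1 - c) = 1 := geom_series_mul_neg _ hc1
      have hVn : ‖V‖ ≤ (1 - ‖c * T 0‖)⁻¹ := by
        have h := tsum_geometric_le_of_norm_lt_one (c * T 0) hc2
        simpa using h
      refine ⟨V * U * (1 - c), ?_, ?_, ?_⟩
      · calc V * U * (1 - c) * ∑ k ∈ Finset.range (r + 1 + 1), cc T k
            = V * U * ((1 - c) * ∑ k ∈ Finset.range (r + 1 + 1), cc T k) := by rw [mul_assoc]
          _ = V * (U * ∑ k ∈ Finset.range (r + 1), cc T k) * (1 - c * T 0) := by
            rw [hid]; simp only [mul_assoc]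
          _ = 1 := by rw [hU1, mul_one, hV1]
      · have h5 : ∑ k ∈ Finset.range (r + 1 + 1), cc T k =
            W * ((∑ k ∈ Finset.range (r + 1), cc T k) * (1 - c * T 0)) := by
          rw [← hid, ← mul_assoc, hW1, one_mul]
        rw [h5]
        calc W * ((∑ k ∈ Finset.range (r + 1), cc T k) * (1 - c * T 0)) * (V * U * (1 - c))
            = W * (∑ k ∈ Finset.range (r + 1), cc T k) * ((1 - c * T 0) * V) * (U * (1 - c)) := by
              simp only [mul_assoc]
          _ = W * ((∑ k ∈ Finset.range (r + 1), cc T k) * U) * (1 - c) := by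
              rw [hV2, mul_one]; simp only [mul_assoc]
          _ = 1 := by rw [hU2, mul_one, hW1]
      · have h6 : ‖1 - c‖ ≤ Real.exp (Q ^ (r + 1)) := by
          have h7 : ‖1 - c‖ ≤ 1 + Q ^ (r + 1) := by
            have := norm_sub_le (1 : B) c
            rw [norm_one] at this
            linarith only [this, hcn]
          have h8 := Real.add_one_le_exp (Q ^ (r + 1))
          linarith only [h7, h8]
        have h9 : ‖V‖ ≤ Real.exp (Q ^ (r + 2) / (1 - Q)) := by
          have ht : 0 < 1 - Q ^ (r + 2) := by linarith only [hp2]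
          have h10 : (1 - ‖c * T 0‖)⁻¹ ≤ (1 - Q ^ (r + 2))⁻¹ :=
            inv_anti₀ ht (by linarith only [hcn2])
          have h11 : (1 - Q ^ (r + 2))⁻¹ = Q ^ (r + 2) / (1 - Q ^ (r + 2)) + 1 := by
            field_simp
            ring
          have h12 : Q ^ (r + 2) / (1 - Q ^ (r + 2)) ≤ Q ^ (r + 2) / (1 - Q) := by
            gcongr
          have h13 := Real.add_one_le_exp (Q ^ (r + 2) / (1 - Q))
          linarith only [hVn, h10, h11, h12, h13]
        rw [Finset.sum_range_succ, Real.exp_add]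
        calc ‖V * U * (1 - c)‖ ≤ ‖V‖ * ‖U‖ * ‖1 - c‖ := by
              refine (norm_mul_le _ _).trans ?_
              gcongr
              exact norm_mul_le _ _
          _ ≤ Real.exp (Q ^ (r + 2) / (1 - Q)) *
              Real.exp (∑ k ∈ Finset.range r, (Q ^ (k + 1) + Q ^ (k + 2) / (1 - Q))) *
              Real.exp (Q ^ (r + 1)) := by gcongr
          _ = Real.exp (∑ k ∈ Finset.range r, (Q ^ (k + 1) + Q ^ (k + 2) / (1 - Q))) *
              Real.exp (Q ^ (r + 1) + Q ^ (r + 2) / (1 - Q)) := by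
              rw [Real.exp_add (Q ^ (r + 1))]; ring
  intro r
  obtain ⟨U, h1, h2, h3⟩ := key r
  refine ⟨U, h1, h2, h3.trans (Real.exp_le_exp.mpr ?_)⟩
  have hg : ∑ k ∈ Finset.range r, Q ^ k ≤ 1 / (1 - Q) := by
    have h4 : (∑ k ∈ Finset.range r, Q ^ k) * (1 - Q) = 1 - Q ^ r := by
      have := geom_sum_mul_neg Q r
      linarith only [this]
    rw [le_div_iff₀ hq, h4]
    have := pow_nonneg hQ r
    linarith only [this]
  have h5 : ∑ k ∈ Finset.range r, (Q ^ (k + 1) + Q ^ (k + 2) / (1 - Q)) ≤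
      ∑ k ∈ Finset.range r, (Q ^ k + Q ^ k / (1 - Q)) := by
    refine Finset.sum_le_sum fun k _ => ?_
    have h6 : Q ^ (k + 1) ≤ Q ^ k := pow_le_pow_of_le_one hQ hQ1.le (by omega)
    have h7 : Q ^ (k + 2) ≤ Q ^ k := pow_le_pow_of_le_one hQ hQ1.le (by omega)
    gcongr
  refine h5.trans ?_
  rw [Finset.sum_add_distrib, ← Finset.sum_div]
  have h8 : (∑ k ∈ Finset.range r, Q ^ k) / (1 - Q) ≤ 1 / (1 - Q) / (1 - Q) := by gcongr
  have h9 : 1 / (1 - Q) ≤ 1 / (1 - Q) / (1 - Q) := by
    rw [le_div_iff₀ hq, one_div, inv_mul_cancel₀ hq.ne', ← one_div, le_div_iff₀ hq]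
    linarith only [hQ]
  have h10 : 2 / (1 - Q) ^ 2 = 1 / (1 - Q) / (1 - Q) + 1 / (1 - Q) / (1 - Q) := by
    field_simp
    norm_num
  linarith only [hg, h8, h9, h10]

end Pool.QGR
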