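import Pool.Agent.H18.QGR.Defs

/-!
Board qgr (MP_286349_an), helper18: row XXX = `def XXXStmt : Prop`.

THEOREM: for every mixed `q`-Gaussian tuple `x` (`q` symmetric, `|q_ij| < 1`) in a C*-algebra with
faithful trace the conjugate variables are norm limits of cyclic gradients of polynomials.

IDEA.  `c_i(w) = (φ ⊗ φ)(∂_i W_w)` for the Wick polynomials `W_w` has an explicit formula (`DGE`), of
size `Q^(k(k+1)/2)`, `|w| = 2k+1` (`CBD`).  The Gram matrix of the `W_w`, `|w| = n`, has an inverse of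
size `K^n` (`NEU`, `INV`), so `J_i = ∑ j_i(w) W_w` with `|j_i(w)| ≤ C^n Q^(n^2/8)` (`JEX`, `JCV`).
The truncations `p_i = ∑_{|w| ≤ N} j_i(w) W_w` satisfy `∑ [X_i, p_i] = ∑_{|v| = N, N+1} b(v) W_v` with
`b` superexponentially small (`PHZ`, `PHB`, `GNB`), so they are close to a cyclic gradient (`AVG`).
-/

set_option autoImplicit false

noncomputable section

open Filter
open scoped Topology

namespace Pool.QGR

open Pool.CGR

/-! ### Algebra of the Fock space -/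

/-- **ARC**.  Linear, `f = single w 1`.  Both sides: sum over the pairs of positions `k ≠ l` with
`w_k = j`, `w_l = i` of the product of the weights; for `k < l` the weights are the same on both sides;
for `k > l` one side has the factor `q_(j i)` (from `w_l = i` in `w_(<k)`), the other `q_(i j)` (from
`w_k = j` in `w_(>l)`).  Induction on `w` may be easier: `an j (single (a :: w) 1) =
[a = j] single w 1 + q_(j a) cn a (an j (single w 1))`, `ar i (single (a :: w) 1) =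
[a = i] om i w single w 1 + cn a (ar i (single w 1))`. -/
def ARCStmt : Prop :=
  ∀ (m : ℕ) (q : Fin m → Fin m → ℝ), (∀ i j, q i j = q j i) → ∀ (i j : Fin m) (f : E m),
    an q j (ar q i f) = ar q i (an q j f)

/-- **COM**.  `cn`, `sn` commute; `ARC`; `an j (sn i e_w) = sn i (an j e_w) + [i = j] om j w e_w`,
`ar i (cn j e_w) = cn j (ar i e_w) + [i = j] om i w e_w`. -/
def COMStmt : Prop :=
  ∀ (m : ℕ) (q : Fin m → Fin m → ℝ), (∀ i j, q i j = q j i) → ∀ (i j : Fin m) (f : E m),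
    X q j (Xr q i f) = Xr q i (X q j f)

/-- **FKR**.  Induction on `w`, `COM`. -/
def FKRStmt : Prop :=
  ∀ (m : ℕ) (q : Fin m → Fin m → ℝ), (∀ i j, q i j = q j i) → ∀ (i : Fin m) (w : List (Fin m)),
    Fk q (w ++ [i]) = Xr q i (Fk q w)

/-- **WKF**.  Strong induction on the length; `Ph q (cn j f) = X q j (Ph q f)`. -/
def WKFStmt : Prop :=
  ∀ (m : ℕ) (q : Fin m → Fin m → ℝ) (w : List (Fin m)), Ph q (Wk q w) = Finsupp.single w 1

/-- **WKI**.  `Xi q (X q j g) = cn j (Xi q g)` (for `g = single u 1` this is the definition of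
`Wk q (j :: u)`); so `Xi q (Fk q w) = single w 1` by induction. -/
def WKIStmt : Prop :=
  ∀ (m : ℕ) (q : Fin m → Fin m → ℝ) (f : E m), Xi q (Ph q f) = f

/-- **WKS**.  Strong induction on the length. -/
def WKSStmt : Prop :=
  ∀ (m : ℕ) (q : Fin m → Fin m → ℝ) (w u : List (Fin m)), w.length < u.length → Wk q w u = 0

/-- **WKN**.  `L = 1 + 1 / (1 - Q)`, `l1 (Wk (j w)) ≤ l1 (Wk w) + ∑_k Q^k l1 (Wk (w without w_k)) ≤
L^n + L^(n-1) / (1 - Q) ≤ L^(n+1)`. -/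
def WKNStmt : Prop :=
  ∀ (m : ℕ) (q : Fin m → Fin m → ℝ) (Q : ℝ), SQ q Q → ∀ w : List (Fin m),
    l1 (Wk q w) ≤ (1 + 1 / (1 - Q)) ^ w.length

/-- **WXR** (right multiplication of Wick polynomials).  Apply `Ph`: `Ph (sn j f) = Xr j (Ph f)`
(`FKR`), `WKF`; `WKI` gives injectivity of `Ph`. -/
def WXRStmt : Prop :=
  ∀ (m : ℕ) (q : Fin m → Fin m → ℝ), (∀ i j, q i j = q j i) → ∀ (j : Fin m) (w : List (Fin m)),
    sn j (Wk q w) = Wk q (w ++ [j]) + ∑ k ∈ Finset.range w.length,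
      if w[k]? = some j then om q j (w.drop (k + 1)) • Wk q (w.eraseIdx k) else 0

/-! ### The conjugate variables in Fock coordinates -/

/-- **DGE** (checked by computer).  Split the sum `Ge i (j :: w)` into the first letter (`i = j`:
`v = w`, `Ar w e_∅ = 0` unless `w = []`) and the splits `w = u i v` (with `j :: u`); `k = |v|`,
`θ(i, v) = pr (i :: v)`.  `ar p (e_(j u)) = cn j (ar p e_u) + [p = j] om j u e_u`, so by induction on `v`
`Ar v (cn j e_u) = cn j (Ar v e_u) + ∑_s [v_s = j] c_s Ar (v without v_s) e_u`, where `c_s` is the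
product of `q_(j a)` over the letters `a` of `u` without the letters `v_(s+1), …, v_k` (as operators:
`Ar v (cn j f) = cn j (Ar v f) + ∑_s [v_s = j] Ar v_(<s) (D_j (Ar v_(>s) f))`, `D_j e_z = om j z e_z`,
and `om j v_(>s) • D_j (Ar v_(>s) e_u) = om j u • Ar v_(>s) e_u`).  `X j (Ge i w)` has the terms
`cn j (..) + an j (..)`, `an j` commutes with `Ar v` (`ARC`), and `Ge i (an j e_w)` is the sum over
`w = u i v` of the terms with a letter of `u` removed (they cancel `an j (..)`) and of the terms with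
a letter `v_s = j` removed, with weight `om j u q_(j i) om j v_(<s)`; use
`θ(i, v) = q_(j i) om j v_(<s) om j v_(>s) θ(i, v without v_s)` for `v_s = j`, and the sign. -/
def DGEStmt : Prop :=
  ∀ (m : ℕ) (q : Fin m → Fin m → ℝ), (∀ i j, q i j = q j i) → ∀ (i j : Fin m) (w : List (Fin m)),
    Ge q i (j :: w) = X q j (Ge q i w) - GeL q i (an q j (Finsupp.single w 1)) +
      if i = j ∧ w = [] then Finsupp.single [] 1 else 0

/-- **DFO**.  `Dl : E m →ₗ E m`, `Dl w = ∑_k [w_k = i] (Fk (w.drop (k+1)) []) • Fk (w.take k)`.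
`Dl (cn j f) = X j (Dl f) + [i = j] (Ph f) [] • e_∅`, so (`WKF`) `Dl (Wk w)` satisfies the recursion
of `DGE`, so `Dl (Wk w) = Ge i w` (strong induction on the length); and `(Dl w) [] = dq φ i w`. -/
def DFOStmt : Prop :=
  ∀ (m : ℕ) (q : Fin m → Fin m → ℝ), (∀ i j, q i j = q j i) → ∀ (i : Fin m) (w : List (Fin m)),
    ci q i (Wk q w) = Ge q i w []

/-- **CBD**.  `DFO`; `(Ar v e_u) [] = 0` unless `|u| = |v|`; so `|w| = 2k+1`, one split, `|v| = k`;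
`|pr (i :: v)| ≤ Q^(0 + 1 + … + k)`, `l1 (ar p f) ≤ l1 f / (1 - Q)`. -/
def CBDStmt : Prop :=
  ∀ (m : ℕ) (q : Fin m → Fin m → ℝ) (Q : ℝ), SQ q Q → ∀ (i : Fin m) (w : List (Fin m)),
    ‖ci q i (Wk q w)‖ ≤ Q ^ tr (w.length / 2) * (1 / (1 - Q)) ^ (w.length / 2)

/-! ### The pairing of the Wick polynomials -/

/-- **ORT**.  `W_w = evP x (Wk w)`.  `τ (W_w) = [w = []]` (`Law`, `WKF`: `τ (evP x f) = (Ph f) []`).
`W_(w j) = W_w x_j - ∑_k [w_k = j] om j w_(>k) W_(w without w_k)` (`WXR`) and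
`x_j W_v = W_(j v) + ∑_k [v_k = j] om j v_(<k) W_(v without v_k)` (definition), so
`τ(W_(w j) W_v) = τ(W_w W_(j v)) + ∑_k [v_k = j] om j v_(<k) τ(W_w W_(v without v_k)) -
∑_k [w_k = j] om j w_(>k) τ(W_(w without w_k) W_v)`.  Induction on `|w|`: for `|w| < |v|` everything
is `0`; for `|w| > |v|` use that `τ` is a trace; for `|v| = |w| + 1` the second formula. -/
def ORTStmt : Prop :=
  ∀ (m : ℕ) (q : Fin m → Fin m → ℝ), (∀ i j, q i j = q j i) → ∀ (A : Type) [Ring A] [Algebra ℂ A]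
    (τ : A →ₗ[ℂ] ℂ), (∀ a b, τ (a * b) = τ (b * a)) → ∀ x : Fin m → A, Law q τ x →
    (∀ w v : List (Fin m), w.length ≠ v.length → τ (evP x (Wk q w) * evP x (Wk q v)) = 0) ∧
    ∀ (j : Fin m) (w v : List (Fin m)), v.length = w.length + 1 →
      τ (evP x (Wk q (w ++ [j])) * evP x (Wk q v)) = ∑ k ∈ Finset.range v.length,
        if v[k]? = some j then
          om q j (v.take k) * τ (evP x (Wk q w) * evP x (Wk q (v.eraseIdx k))) else 0

/-- **NEU** (Banach algebra).  `c k = T_(k-1) ⋯ T_1 T_0`, `S r = ∑_{k < r} c k`.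
`c_r T_(j+1) = T_j c_r` for `j + 2 ≤ r` (braid and commutation), so with `c = c_r`, `r ≥ 1`:
`(1 - c) S_(r+1) = S_r + c - c S_(r+1) = S_r - c (S_(r+1) - 1) = S_r - c S'' T_0 = S_r (1 - c T_0)`,
where `S'' = ∑_{1 ≤ k ≤ r} T_(k-1) ⋯ T_1`, `c S'' = S_r c`.  So
`S_(r+1) = (1 - c)⁻¹ S_r (1 - c T_0)`, `S_(r+1)⁻¹ = (1 - c T_0)⁻¹ S_r⁻¹ (1 - c)`, norm at most
`(1 + Q^r) / (1 - Q^(r+1)) ‖S_r⁻¹‖ ≤ exp (Q^r + Q^(r+1) / (1 - Q)) ‖S_r⁻¹‖` (geometric series;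
`1 / (1 - t) ≤ exp (t / (1 - t))`); `∑_{r ≥ 1} (Q^r + Q^(r+1) / (1 - Q)) ≤ 2 / (1 - Q)^2`. -/
def NEUStmt : Prop :=
  ∀ (B : Type) [NormedRing B] [NormOneClass B] [CompleteSpace B] (T : ℕ → B) (Q : ℝ), 0 ≤ Q →
    Q < 1 → (∀ i, ‖T i‖ ≤ Q) → (∀ i, T i * T (i + 1) * T i = T (i + 1) * T i * T (i + 1)) →
    (∀ i j, i + 2 ≤ j → T i * T j = T j * T i) → ∀ r : ℕ, ∃ U : B,
      U * ∑ k ∈ Finset.range (r + 1), ((List.range k).reverse.map T).prod = 1 ∧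
      (∑ k ∈ Finset.range (r + 1), ((List.range k).reverse.map T).prod) * U = 1 ∧
      ‖U‖ ≤ Real.exp (2 / (1 - Q) ^ 2)

/-- the bounded functions on the words -/
abbrev Bd (m : ℕ) : Type := lp (fun _ : List (Fin m) => ℂ) ⊤

/-- **OPT** (the operators).  `(T_i f)(v) = q_(v_i v_(i+1)) f(v with v_i, v_(i+1) exchanged)` if
`i + 1 < |v|`, otherwise `0`.  E.g. `T_0 f (a :: b :: v) = q_ab f (b :: a :: v)`, and
`(T_(i+1) f) (a :: v) = (T_i (f (a :: ·))) v`.  `((T_(k-1) ⋯ T_0) f)(v) = om v_k v_(<k)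
f(v_k :: v without v_k)` by induction on `k` (`q` is symmetric, and `T_(k-1) ⋯ T_0 =
(1 ⊗ (T_(k-2) ⋯ T_0)) T_0`). -/
def OPTStmt : Prop :=
  ∀ (m : ℕ) (q : Fin m → Fin m → ℝ) (Q : ℝ), SQ q Q → ∃ T : ℕ → (Bd m →L[ℂ] Bd m),
    (∀ i, ‖T i‖ ≤ Q) ∧ (∀ i, T i * T (i + 1) * T i = T (i + 1) * T i * T (i + 1)) ∧
    (∀ i j, i + 2 ≤ j → T i * T j = T j * T i) ∧
    ∀ (k : ℕ) (f : Bd m) (v : List (Fin m)), (k ≠ 0 ∨ v ≠ []) →
      (((List.range k).reverse.map T).prod f) v =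
        if h : k < v.length then om q v[k] (v.take k) * f (v[k] :: v.eraseIdx k) else 0

/-- **INV** (inverse of the pairing matrix).  `p' w v = p w.reverse v`, so
`p' (a :: w) v = ∑_k [v_k = a] om a v_(<k) p' w (v without v_k)` for `|v| = |w| + 1`.  Induction on
`n`, `K = exp (2 / (1 - Q)^2)`, `S = S_(n+1)` of `NEU` for the operators of `OPT`: for `|v| = n + 1`,
`∑_{|w| = n} ∑_a j'(a :: w) p' (a :: w) v = (S G) v` with
`G (a :: v') = ∑_{|w| = n} j'(a :: w) p' w v'`.  Given `c` take `G = S⁻¹ c` (`c` cut off to the words of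
length `n + 1`), `‖G‖ ≤ K B`, and solve `∑_w j'(a :: w) p' w v' = G (a :: v')` for each `a` by the
induction hypothesis.  Uniqueness: `S G = 0` on the words of length `n + 1` (put `G = 0` on the other
lengths: `S` preserves the length), so `G = 0`. -/
def INVStmt : Prop :=
  ∀ (m : ℕ) (q : Fin m → Fin m → ℝ) (Q : ℝ), SQ q Q → ∀ p : List (Fin m) → List (Fin m) → ℂ,
    p [] [] = 1 →
    (∀ (j : Fin m) (w v : List (Fin m)), v.length = w.length + 1 →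
      p (w ++ [j]) v = ∑ k ∈ Finset.range v.length,
        if v[k]? = some j then om q j (v.take k) * p w (v.eraseIdx k) else 0) →
    ∀ n : ℕ,
      (∀ (c : List (Fin m) → ℂ) (B : ℝ), 0 ≤ B → (∀ v, v.length = n → ‖c v‖ ≤ B) →
        ∃ j : List (Fin m) → ℂ, (∀ w, ‖j w‖ ≤ Real.exp (2 / (1 - Q) ^ 2) ^ n * B) ∧
          ∀ v : List (Fin m), v.length = n → ∑ w ∈ wn m n, j w * p w v = c v) ∧
      ∀ b : List (Fin m) → ℂ,
        (∀ v : List (Fin m), v.length = n → ∑ w ∈ wn m n, b w * p w v = 0) →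
        ∀ w : List (Fin m), w.length = n → b w = 0

/-- **JEX**.  `INV` for `p w v = τ (W_w W_v)` (`ORT`; `p [] [] = τ 1 = Fk [] [] = 1`), for each `n`
with `c v = ci i (Wk v)` and `B` from `CBD`; put the solutions for all lengths together.
`C = exp (2 / (1 - Q)^2) / (1 - Q)`. -/
def JEXStmt : Prop :=
  ∀ (m : ℕ) (q : Fin m → Fin m → ℝ) (Q : ℝ), SQ q Q → ∀ (A : Type) [Ring A] [Algebra ℂ A]
    (τ : A →ₗ[ℂ] ℂ), (∀ a b, τ (a * b) = τ (b * a)) → ∀ x : Fin m → A, Law q τ x →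
    (∃ (C : ℝ) (j : Fin m → List (Fin m) → ℂ), JS q Q C τ x j) ∧ Unq q τ x

/-- **SMB**.  `tr (n / 2) ≥ n^2 / 8 - 1`, or the ratio test for `n ↦ n + 2`:
`tr ((n + 2) / 2) = tr (n / 2) + n / 2 + 1`, `C^2 Q^(n/2+1) ≤ 1/2` for large `n`. -/
def SMBStmt : Prop :=
  ∀ Q C : ℝ, 0 ≤ Q → Q < 1 → 0 ≤ C → Summable fun n : ℕ => C ^ n * Q ^ tr (n / 2)

/-- **JCV** (the conjugate variables).  `ρ ≥ ‖x_i‖`, `ρ ≥ 1`, `‖evP x f‖ ≤ ρ^n l1 f` for `f` supported on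
the words of length `≤ n` (`WKS`, `WKN`), so `‖W_w‖ ≤ (ρ L)^|w|`; there are `m^n` words of length `n`;
`SMB`: `J_i = ∑_w j_i(w) W_w` converges absolutely, also along `wds m (N+1)`.  `τ` is continuous, so
`τ (J_i W_v) = ∑_{|w| = |v|} j_i(w) τ(W_w W_v) = ci i (Wk v)` (`ORT`, `JS.sol`).  Every word `u` is
`ev x u = evP x (Xi (Ph (single u 1))) = ∑_v (Fk u)(v) W_v` (`WKI`), so `τ (J_i ev x u) =
∑_v (Fk u)(v) ci i (Wk v) = ci i (single u 1) = dq φ i u`, `φ w = Fk w [] = τ (ev x w)`. -/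
def JCVStmt : Prop :=
  ∀ (m : ℕ) (q : Fin m → Fin m → ℝ) (Q : ℝ), SQ q Q → ∀ (A : Type) [CStarAlgebra A]
    (τ : A →ₗ[ℂ] ℂ), IsTrace τ → ∀ x : Fin m → A, Law q τ x →
    ∀ (C : ℝ) (j : Fin m → List (Fin m) → ℂ), JS q Q C τ x j →
    ∃ J : Fin m → A,
      (∀ (i : Fin m) (w : List (Fin m)), τ (J i * ev x w) = dq (fun w => τ (ev x w)) i w) ∧
      ∀ i, Tendsto (fun N => evP x (pN q j N i)) atTop (𝓝 (J i))

/-! ### The commutators -/

/-- **TEL** (telescoping).  `dq φ i (w ++ [i])` has the terms `w = u i v`: `φ(u) φ(v i)`, and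
`φ(w) φ([])`; `dq φ i (i :: w)`: `φ(i u) φ(v)`, and `φ([]) φ(w)`.  Summed over `i`:
`∑_k (φ(w_(<k)) φ(w_(>k) w_k) - φ(w_k w_(<k)) φ(w_(>k)))
= ∑_k (φ(w_(<k)) φ(w_(≥k)) - φ(w_(≤k)) φ(w_(>k))) = φ([]) φ(w) - φ(w) φ([]) = 0`. -/
def TELStmt : Prop :=
  ∀ (m : ℕ) (φ : List (Fin m) → ℂ), (∀ (i : Fin m) (w : List (Fin m)), φ (i :: w) = φ (w ++ [i])) →
    ∀ w : List (Fin m), ∑ i, (dq φ i (w ++ [i]) - dq φ i (i :: w)) = 0

/-- **PHZ**.  `G = gg (pN j N)`, `P_i = evP x (pN j N i)`.  (1) If `Ph f` is supported on the words of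
length `≤ N` then `τ (P_i evP x f) = ci i f`: `f = ∑_v (Ph f)(v) Wk v` (`WKI`), `ORT`, `JS.sol`.
(2) For `|u| < N`: `∑_{|v| = |u|} (Ph G)(v) τ(W_v W_u) = τ (evP x G * W_u)` (`WKI`, `ORT`)
`= ∑_i τ ((x_i P_i - P_i x_i) W_u) = ∑_i τ (P_i (W_u x_i - x_i W_u)) = ∑_i ci i (sn i (Wk u) -
cn i (Wk u))` by (1): `Ph (sn i (Wk u)) = Xr i e_u` (`FKR`, `WKF`) and `Ph (cn i (Wk u)) = X i e_u` are
supported on the words of length `≤ |u| + 1`.  This is `0` by `TEL` (linearly extended; `φ w =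
Fk w [] = τ (ev x w)` is a trace).  (3) `Unq`. -/
def PHZStmt : Prop :=
  ∀ (m : ℕ) (q : Fin m → Fin m → ℝ) (Q : ℝ), SQ q Q → ∀ (A : Type) [Ring A] [Algebra ℂ A]
    (τ : A →ₗ[ℂ] ℂ), (∀ a b, τ (a * b) = τ (b * a)) → ∀ x : Fin m → A, Law q τ x →
    ∀ (C : ℝ) (j : Fin m → List (Fin m) → ℂ), JS q Q C τ x j → Unq q τ x →
    ∀ (N : ℕ) (v : List (Fin m)), v.length < N → Ph q (gg (pN q j N)) v = 0

/-- **PHB**.  `Ph G = ∑_i ∑_{|w| ≤ N} j_i(w) (X i e_w - Xr i e_w)` (`WKF`, `FKR`); the annihilation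
terms have length `< N`, so for `|v| ≥ N`, `v = a :: u = u' ++ [b]`, `|u| ≤ N`: the value is
`j_a(u) - j_b(u')`, and `‖j_a(u)‖ ≤ C^|u| Q^(tr (|u| / 2))`, `N - 1 ≤ |u| ≤ N`. -/
def PHBStmt : Prop :=
  ∀ (m : ℕ) (q : Fin m → Fin m → ℝ) (Q : ℝ), SQ q Q → ∀ (C : ℝ), 1 ≤ C →
    ∀ (j : Fin m → List (Fin m) → ℂ),
    (∀ i w, ‖j i w‖ ≤ C ^ w.length * Q ^ tr (w.length / 2)) →
    ∀ (N : ℕ) (v : List (Fin m)), (N + 1 < v.length → Ph q (gg (pN q j N)) v = 0) ∧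
      (N ≤ v.length → ‖Ph q (gg (pN q j N)) v‖ ≤ 2 * (C ^ N * Q ^ tr ((N - 1) / 2)))

/-- **GNB**.  `G = Xi (Ph G) = ∑_v (Ph G)(v) Wk v` (`WKI`), only `|v| = N, N + 1` (`PHZ`, `PHB`);
`l1 (Wk v) ≤ L^(N+1)` (`WKN`); `m^N + m^(N+1)` words.  `C' = 4 (m + 1) C L`. -/
def GNBStmt : Prop :=
  ∀ (m : ℕ) (q : Fin m → Fin m → ℝ) (Q : ℝ), SQ q Q → ∀ (A : Type) [Ring A] [Algebra ℂ A]
    (τ : A →ₗ[ℂ] ℂ), (∀ a b, τ (a * b) = τ (b * a)) → ∀ x : Fin m → A, Law q τ x →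
    ∀ (C : ℝ) (j : Fin m → List (Fin m) → ℂ), JS q Q C τ x j → Unq q τ x →
    ∃ C' : ℝ, 1 ≤ C' ∧ ∀ N : ℕ, l1 (gg (pN q j N)) ≤ C' ^ (N + 1) * Q ^ tr ((N - 1) / 2)

/-- **AVG** (almost cyclic polynomials).  `c (a, u) = p_a(u)` for the word `W = a :: u`;
`(gg p)(W) = c(W) - c(W')`, `W' = b :: v` for `W = v ++ [b]` (rotation).  `c'(W)` = mean of `c` over the
`|W|` rotations of `W`: invariant under rotation, and `∑_{|W| = n} |c'(W) - c(W)| ≤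
n ∑_{|W| = n} |(gg p)(W)|` (write `c (rot^r W) - c(W)` as a telescoping sum, `r < n`).  `GRD` for
`c'` and `n = N + 1` gives `H` with `D_i H (x) = ∑_{|w| ≤ N} c'(i w) ev x w`; `evP x (p_i) =
∑_{|w| ≤ N} c(i w) ev x w`, `‖ev x w‖ ≤ ρ^N`. -/
def AVGStmt : Prop :=
  ∀ (m N : ℕ) (p : Fin m → E m), (∀ i w, N < w.length → p i w = 0) →
    ∃ H : E m, ∀ (A : Type) [CStarAlgebra A] (x : Fin m → A) (ρ : ℝ), 1 ≤ ρ → (∀ i, ‖x i‖ ≤ ρ) →
      ∀ i, ‖(H.sum fun w r => r • cg x i w) - evP x (p i)‖ ≤ ρ ^ N * (N + 1) * l1 (gg p)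

/-- **FIN**.  `JEX`, `JCV`: `J`; `AVG` for `p = pN j N` (`WKS`): `H N`, with
`‖D_i (H N) (x) - evP x (pN j N i)‖ ≤ ρ^N (N + 1) C'^(N+1) Q^(tr ((N-1)/2)) → 0` (`GNB`, `SMB`). -/
def FINStmt : Prop :=
  ∀ (m : ℕ) (q : Fin m → Fin m → ℝ) (Q : ℝ), SQ q Q → ∀ (A : Type) [CStarAlgebra A]
    (τ : A →ₗ[ℂ] ℂ), IsTrace τ → ∀ x : Fin m → A, Law q τ x →
    ∃ (J : Fin m → A) (H : ℕ → (List (Fin m) →₀ ℂ)),
      (∀ (i : Fin m) (w : List (Fin m)), τ (J i * ev x w) = dq (fun w => τ (ev x w)) i w) ∧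
      ∀ i, Tendsto (fun n => (H n).sum fun w r => r • cg x i w) atTop (𝓝 (J i))

end Pool.QGR
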