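import Pool.Agent.H18.QGR.JEX
import Pool.Agent.H18.QGR.Stmts
import Pool.Agent.H91.QGR.OPT
import Pool.Agent.H72.QGR.DGE
import Pool.Agent.H66.QGR.INV
import Pool.Agent.H54.QGR.AVG
import Pool.Agent.H22.QGR.WKN
import Pool.Agent.H22.QGR.PHB
import Pool.Agent.H14.QGR.DFO
import Pool.Agent.H1.QGR.FIN
import Pool.Agent.H1.QGR.WXR
import Pool.Agent.H18.QGR.NEU
import Pool.Agent.H2.QGR.FKR
import Pool.Agent.H2.QGR.SMB
import Pool.Agent.H22.QGR.WKS
import Pool.Agent.H24.QGR.WKI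
import Pool.Agent.H40.QGR.ORT
import Pool.Agent.H40.QGR.WKF
import Pool.Agent.H46.QGR.ARC
import Pool.Agent.H46.QGR.COM
import Pool.Agent.H53.QGR.PHZ
import Pool.Agent.H55.QGR.CBD
import Pool.Agent.H62.QGR.TEL
import Pool.Agent.H71.QGR.JCV
import Pool.Agent.H85.QGR.GNB

/-!
Board qgr, helper18: the assembly.
-/

set_option autoImplicit false

noncomputable section

namespace Pool.QGR

theorem com' : COMStmt := com_thm arc_thm
theorem fkr' : FKRStmt := fkr_thm com'
theorem wxr' : WXRStmt := wxr_thm fkr' wkf_thm wki_thm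
theorem ort' : ORTStmt := ort_thm wxr' wkf_thm
theorem phz' : PHZStmt := phz_thm wki_thm wkf_thm fkr' ort' tel_thm

theorem dfo' : DFOStmt := dfo_thm (dge_thm arc_thm) wkf_thm
theorem cbd' : CBDStmt := cbd_thm dfo'
theorem inv' : INVStmt := inv_thm neu_thm opt_thm
theorem phb' : PHBStmt := phb_thm wkf_thm fkr'
theorem gnb' : GNBStmt := gnb_thm phz' phb' wki_thm wkn_thm
theorem jcv' : JCVStmt := jcv_thm smb_thm wks_thm wkn_thm wki_thm ort'

theorem jex' : JEXStmt := jex_thm inv' ort' cbd'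

theorem fin' : FINStmt := fin_thm jex' jcv' gnb' avg_thm smb_thm wks_thm

end Pool.QGR
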