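import Pool.Agent.H18.CGR.Defs

/-!
Project QGR (MP_286349_an, mixed q-Gaussian tuples), helper18: definitions.
-/

set_option autoImplicit false

noncomputable section

namespace Pool.QGR

open Pool.CGR

/-- Vectors of the algebraic Fock space, and also formal polynomials (combinations of words). -/
abbrev E (m : ℕ) : Type := List (Fin m) →₀ ℂ

/-- `q` is symmetric with entries at most `Q < 1`. -/
structure SQ {m : ℕ} (q : Fin m → Fin m → ℝ) (Q : ℝ) : Prop where
  symm : ∀ i j, q i j = q j i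
  bdd : ∀ i j, |q i j| ≤ Q
  nonneg : 0 ≤ Q
  lt : Q < 1

variable {m : ℕ} (q : Fin m → Fin m → ℝ)

/-- the weight `q_(j u_1) ⋯ q_(j u_n)` -/
def om (j : Fin m) (u : List (Fin m)) : ℂ := (u.map fun a => (q j a : ℂ)).prod

/-- annihilation from the left: `e_w ↦ ∑_{w_k = j} om j (w_1 … w_(k-1)) e_(w without w_k)` -/
def an (j : Fin m) : E m →ₗ[ℂ] E m :=
  Finsupp.linearCombination ℂ fun w => ∑ k ∈ Finset.range w.length,
    if w[k]? = some j then Finsupp.single (w.eraseIdx k) (om q j (w.take k)) else 0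

/-- annihilation from the right -/
def ar (j : Fin m) : E m →ₗ[ℂ] E m :=
  Finsupp.linearCombination ℂ fun w => ∑ k ∈ Finset.range w.length,
    if w[k]? = some j then Finsupp.single (w.eraseIdx k) (om q j (w.drop (k + 1))) else 0

/-- the letter `j` added on the left -/
def cn (j : Fin m) : E m →ₗ[ℂ] E m := Finsupp.lmapDomain ℂ ℂ fun w => j :: w

/-- the letter `j` added on the right -/
def sn (j : Fin m) : E m →ₗ[ℂ] E m := Finsupp.lmapDomain ℂ ℂ fun w => w ++ [j]

/-- the field operator `X_j = l_j + l_j^*` -/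
def X (j : Fin m) : E m →ₗ[ℂ] E m := cn j + an q j

/-- the right field operator -/
def Xr (j : Fin m) : E m →ₗ[ℂ] E m := sn j + ar q j

/-- `Fk w = X_(w_1) ⋯ X_(w_n) e_∅`; the moment of `w` is `Fk w []`. -/
def Fk : List (Fin m) → E m
  | [] => Finsupp.single [] 1
  | j :: w => X q j (Fk w)

/-- the Wick polynomial of `w` (a formal polynomial) -/
def Wk : List (Fin m) → E m
  | [] => Finsupp.single [] 1
  | j :: w => cn j (Wk w) - ∑ k ∈ Finset.range w.length,
      if w[k]? = some j then om q j (w.take k) • Wk (w.eraseIdx k) else 0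
termination_by w => w.length
decreasing_by
  · simp
  · have := List.length_eraseIdx_le w k
    simp only [List.length_cons]
    omega

/-- polynomials to Fock vectors, `w ↦ Fk w` -/
def Ph : E m →ₗ[ℂ] E m := Finsupp.linearCombination ℂ (Fk q)

/-- Fock vectors to polynomials, `e_w ↦ Wk w` -/
def Xi : E m →ₗ[ℂ] E m := Finsupp.linearCombination ℂ (Wk q)

/-- `P ↦ (φ ⊗ φ)(∂_i P)`, `φ` the vacuum state -/
def ci (i : Fin m) : E m →ₗ[ℂ] ℂ :=
  Finsupp.linearCombination ℂ fun w => dq (fun u => Fk q u []) i w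

/-- the value of a formal polynomial -/
def evP {A : Type} [Ring A] [Algebra ℂ A] (x : Fin m → A) : E m →ₗ[ℂ] A :=
  Finsupp.linearCombination ℂ (ev x)

/-- `∏_{s < t} q_(w_s w_t)` -/
def pr : List (Fin m) → ℂ
  | [] => 1
  | a :: w => om q a w * pr w

/-- `Ar v = ar v_1 ∘ ar v_2 ∘ ⋯ ∘ ar v_k` -/
def Ar : List (Fin m) → (E m →ₗ[ℂ] E m)
  | [] => LinearMap.id
  | a :: v => (ar q a).comp (Ar v)

/-- the formula for `(id ⊗ φ)(∂_i W_w)`: the sum over `w = u i v` of
`(-1)^|v| ∏_{s<t} q_((i v)_s (i v)_t) Ar v e_u` -/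
def Ge (i : Fin m) (w : List (Fin m)) : E m :=
  ∑ k ∈ Finset.range w.length, if w[k]? = some i then
    ((-1 : ℂ) ^ (w.length - 1 - k) * pr q (w.drop k)) •
      Ar q (w.drop (k + 1)) (Finsupp.single (w.take k) 1) else 0

/-- the linear extension of `Ge` -/
def GeL (i : Fin m) : E m →ₗ[ℂ] E m := Finsupp.linearCombination ℂ (Ge q i)

/-- `ℓ¹` norm -/
def l1 {m : ℕ} (f : E m) : ℝ := f.sum fun _ r => ‖r‖

/-- `∑ [X_i, p_i]` as a formal polynomial -/
def gg {m : ℕ} (p : Fin m → E m) : E m := ∑ i, (cn i (p i) - sn i (p i))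

/-- the words of length `n` -/
def wn (m n : ℕ) : Finset (List (Fin m)) :=
  Finset.univ.image fun f : Fin n → Fin m => List.ofFn f

theorem mem_wn {m n : ℕ} {w : List (Fin m)} : w ∈ wn m n ↔ w.length = n := by
  simp only [wn, Finset.mem_image, Finset.mem_univ, true_and]
  constructor
  · rintro ⟨f, rfl⟩
    simp
  · intro h
    subst h
    exact ⟨fun i => w.get i, by simp⟩

/-- the joint law of `x` is the mixed `q`-Gaussian law -/
def Law {A : Type} [Ring A] [Algebra ℂ A] (τ : A →ₗ[ℂ] ℂ) (x : Fin m → A) : Prop :=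
  ∀ w : List (Fin m), τ (ev x w) = Fk q w []

/-- `1 + 2 + … + k` -/
def tr (k : ℕ) : ℕ := k * (k + 1) / 2

/-- `j i` are the Wick coefficients of the conjugate variable `J_i` (with their bound). -/
structure JS (Q C : ℝ) {A : Type} [Ring A] [Algebra ℂ A] (τ : A →ₗ[ℂ] ℂ) (x : Fin m → A)
    (j : Fin m → List (Fin m) → ℂ) : Prop where
  one_le : 1 ≤ C
  bdd : ∀ i w, ‖j i w‖ ≤ C ^ w.length * Q ^ tr (w.length / 2)
  sol : ∀ i v, ∑ w ∈ wn m v.length, j i w * τ (evP x (Wk q w) * evP x (Wk q v)) =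
    ci q i (Wk q v)

/-- the pairings of the Wick polynomials of length `n` are nondegenerate -/
def Unq {A : Type} [Ring A] [Algebra ℂ A] (τ : A →ₗ[ℂ] ℂ) (x : Fin m → A) : Prop :=
  ∀ (n : ℕ) (b : List (Fin m) → ℂ),
    (∀ v : List (Fin m), v.length = n →
      ∑ w ∈ wn m n, b w * τ (evP x (Wk q w) * evP x (Wk q v)) = 0) →
    ∀ w : List (Fin m), w.length = n → b w = 0

/-- the partial sums `∑_{|w| ≤ N} j_i(w) W_w` (formal polynomials) -/
def pN (j : Fin m → List (Fin m) → ℂ) (N : ℕ) (i : Fin m) : E m :=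
  ∑ w ∈ wds m (N + 1), j i w • Wk q w

end Pool.QGR
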