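import Pool.Agent.H18.QGR.Stmts

/-! Board qgr, row JEX (helper18). -/

set_option autoImplicit false

noncomputable section

namespace Pool.QGR

open Pool.CGR

theorem jex_thm (hI : INVStmt) (hO : ORTStmt) (hC : CBDStmt) : JEXStmt := by
  intro m q Q hQ A _ _ τ hτ x hL
  obtain ⟨h1, h2⟩ := hO m q hQ.symm A τ hτ x hL
  have hp0 : τ (evP x (Wk q []) * evP x (Wk q [])) = 1 := by
    have h3 : evP x (Wk q []) = 1 := by
      rw [Wk, evP, Finsupp.linearCombination_single, one_smul]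
      simp [ev]
    have h4 := hL []
    rw [h3, mul_one]
    simpa [ev, Fk] using h4
  have hI' := hI m q Q hQ (fun w v => τ (evP x (Wk q w) * evP x (Wk q v))) hp0 h2
  refine ⟨?_, fun n b hb => (hI' n).2 b hb⟩
  have hq : 0 < 1 - Q := by linarith only [hQ.lt]
  have hq1 : 1 ≤ 1 / (1 - Q) := by
    rw [le_div_iff₀ hq]
    linarith only [hQ.nonneg]
  have hex : ∀ (i : Fin m) (n : ℕ), ∃ j : List (Fin m) → ℂ,
      (∀ w, ‖j w‖ ≤ Real.exp (2 / (1 - Q) ^ 2) ^ n *
        (Q ^ tr (n / 2) * (1 / (1 - Q)) ^ (n / 2))) ∧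
      ∀ v : List (Fin m), v.length = n →
        ∑ w ∈ wn m n, j w * τ (evP x (Wk q w) * evP x (Wk q v)) = ci q i (Wk q v) := by
    intro i n
    refine (hI' n).1 (fun v => ci q i (Wk q v)) _ ?_ ?_
    · have := hQ.nonneg
      positivity
    · intro v hv
      have h5 := hC m q Q hQ i v
      rw [hv] at h5
      exact h5
  choose J hJ1 hJ2 using hex
  have he : (1 : ℝ) ≤ Real.exp (2 / (1 - Q) ^ 2) := Real.one_le_exp (by positivity)
  refine ⟨Real.exp (2 / (1 - Q) ^ 2) * (1 / (1 - Q)), fun i w => J i w.length w, ?_, ?_, ?_⟩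
  · nlinarith only [he, hq1]
  · intro i w
    refine (hJ1 i w.length w).trans ?_
    rw [mul_pow]
    have h6 : (1 / (1 - Q)) ^ (w.length / 2) ≤ (1 / (1 - Q)) ^ w.length :=
      pow_le_pow_right₀ hq1 (Nat.div_le_self _ _)
    have h7 : 0 ≤ Q ^ tr (w.length / 2) := pow_nonneg hQ.nonneg _
    calc Real.exp (2 / (1 - Q) ^ 2) ^ w.length *
          (Q ^ tr (w.length / 2) * (1 / (1 - Q)) ^ (w.length / 2))
        ≤ Real.exp (2 / (1 - Q) ^ 2) ^ w.length *
          (Q ^ tr (w.length / 2) * (1 / (1 - Q)) ^ w.length) := by gcongr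
      _ = _ := by ring
  · intro i v
    rw [← hJ2 i v.length v rfl]
    refine Finset.sum_congr rfl fun w hw => ?_
    rw [mem_wn.mp hw]

end Pool.QGR
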